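import Mathlib

set_option autoImplicit false

/-!
# Large finite sets of integers all of whose ratios are of the form `(a n + b) / (a n + d)`

Let `a = a₁ a₂` with coprime `a₁`, `a₂`, let `a₁ ∣ b`, `a₂ ∣ d` and `d < b`. For every `k` there are
positive integers `r_1, …, r_k` such that for `i < j` one has `r_i = g (a n + b)`, `r_j = g (a n + d)` for
some `g, n ≥ 1` with `a n + d > 0`. For `a = 1`, `b = 1`, `d = 0` these are the sets with
`r_i - r_j = gcd (r_i, r_j)` of Heath-Brown. Induction step: the set `{M r_i + L} ∪ {L - e c}`,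
`e = b - d`, `M = e a₁`, where `c` is prime to `a₁` and divisible by all other primes which occur, and `L`
is found by the Chinese remainder theorem.
-/

namespace Pool.Agent.T6.H10.Clique

/-- the part of `n` prime to `a` -/
theorem exists_coprime_part (a : ℕ) (n : ℕ) (hn : 0 < n) :
    ∃ u v : ℕ, n = u * v ∧ Nat.Coprime v a ∧ ∃ N, u ∣ a ^ N := by
  induction n using Nat.strong_induction_on with
  | _ n ih =>
    by_cases h : Nat.Coprime n a
    · exact ⟨1, n, by simp, h, 0, by simp⟩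
    · have hg1 : n.gcd a ≠ 1 := h
      have hg0 : 0 < n.gcd a := Nat.gcd_pos_of_pos_left _ hn
      have hg2 : 1 < n.gcd a := by omega
      obtain ⟨n', hn'⟩ := Nat.gcd_dvd_left n a
      have hn'0 : 0 < n' := by
        rcases Nat.eq_zero_or_pos n' with h0 | h0
        · rw [h0, mul_zero] at hn'; omega
        · exact h0
      have hlt : n' < n := by
        conv_rhs => rw [hn']
        nlinarith
      obtain ⟨u, v, huv, hv, N, hN⟩ := ih n' hlt hn'0
      refine ⟨n.gcd a * u, v, ?_, hv, N + 1, ?_⟩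
      · rw [mul_assoc, ← huv]; exact hn'
      · rw [pow_succ, mul_comm]
        exact mul_dvd_mul hN (Nat.gcd_dvd_right n a)

/-- the relation `x = g (a n + b)`, `y = g (a n + d)` -/
def Rel (a : ℕ) (b d : ℤ) (x y : ℕ) : Prop :=
  ∃ (g : ℕ) (n : ℤ), 0 < g ∧ 0 < n ∧ 0 < a * n + d ∧ (x : ℤ) = g * (a * n + b) ∧
    (y : ℤ) = g * (a * n + d)

set_option maxHeartbeats 4000000 in
theorem step (a₁ a₂ : ℕ) (ha1 : 0 < a₁) (ha2 : 0 < a₂) (hco : Nat.Coprime a₁ a₂) (b d : ℤ)
    (hb : (a₁ : ℤ) ∣ b) (hd : (a₂ : ℤ) ∣ d) (hbd : d < b) (r : List ℕ) (hpos : ∀ x ∈ r, 0 < x)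
    (hr : r.Pairwise (Rel (a₁ * a₂) b d)) :
    ∃ (M L ρ : ℕ), 0 < M ∧ 0 < ρ ∧
      (r.map (fun x => M * x + L) ++ [ρ]).Pairwise (Rel (a₁ * a₂) b d) := by
  classical
  obtain ⟨e, he⟩ : ∃ e : ℕ, (e : ℤ) = b - d := ⟨(b - d).toNat, by omega⟩
  have he0 : 0 < e := by omega
  -- `P` contains all the primes of `a`, `e`, the elements, and their differences
  set D : ℕ := ∏ x ∈ r.toFinset, ∏ y ∈ r.toFinset, (if x = y then 1 else (x - y : ℤ).natAbs) with hD
  have hD0 : 0 < D := by
    refine Finset.prod_pos fun x _ => Finset.prod_pos fun y _ => ?_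
    split_ifs with h
    · exact one_pos
    · exact Int.natAbs_pos.2 (sub_ne_zero.2 (by exact_mod_cast h))
  set Q : ℕ := ∏ x ∈ r.toFinset, x with hQ
  have hQ0 : 0 < Q := Finset.prod_pos fun x hx => hpos x (by simpa using hx)
  set P : ℕ := a₁ * a₂ * e * Q * D with hP
  have hP0 : 0 < P := by positivity
  obtain ⟨u, v, huv, hva, N, hN⟩ := exists_coprime_part a₁ P hP0
  have hv0 : 0 < v := by
    rcases Nat.eq_zero_or_pos v with h | h
    · rw [h, mul_zero] at huv; omega
    · exact h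
  have hu0 : 0 < u := by
    rcases Nat.eq_zero_or_pos u with h | h
    · rw [h, zero_mul] at huv; omega
    · exact h
  have huvc : Nat.Coprime u v := by
    have h1 : Nat.Coprime v (a₁ ^ N) := Nat.Coprime.pow_right N hva
    exact (Nat.Coprime.coprime_dvd_right hN h1).symm
  have hxP : ∀ x ∈ r, x ∣ P := by
    intro x hx
    have : x ∣ Q := Finset.dvd_prod_of_mem (fun x => x) (by simpa using hx)
    exact (this.mul_left _).mul_right _
  -- the parts of the elements
  set h : ℕ → ℕ := fun x => a₁ * x.gcd u + v / x.gcd v * v with hh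
  have hsplit : ∀ x ∈ r, x = x.gcd u * x.gcd v := by
    intro x hx
    have h1 : x.gcd (u * v) = x := Nat.gcd_eq_left (huv ▸ hxP x hx)
    rw [Nat.Coprime.gcd_mul x huvc] at h1
    exact h1.symm
  have hg : ∀ x ∈ r, a₁ * x + v * v = x.gcd v * h x := by
    intro x hx
    have h1 : x.gcd v * (v / x.gcd v) = v := Nat.mul_div_cancel' (Nat.gcd_dvd_right x v)
    simp only [hh]
    conv_lhs => rw [hsplit x hx]
    calc a₁ * (x.gcd u * x.gcd v) + v * v = a₁ * (x.gcd u * x.gcd v) + (x.gcd v * (v / x.gcd v)) * v := by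
          rw [h1]
      _ = _ := by ring
  have hhP : ∀ x ∈ r, Nat.Coprime (h x) P := by
    intro x hx
    rw [huv]
    have hwa : Nat.Coprime (v / x.gcd v * v) a₁ := by
      refine Nat.Coprime.mul_left ?_ hva
      exact Nat.Coprime.coprime_dvd_left (Nat.div_dvd_of_dvd (Nat.gcd_dvd_right x v)) hva
    refine Nat.Coprime.mul_right ?_ ?_
    · -- coprime to `u`
      have h1 : Nat.Coprime (h x) a₁ := by
        simp only [hh]
        rw [add_comm]
        exact (Nat.coprime_add_mul_left_left _ _ _).2 hwa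
      exact Nat.Coprime.coprime_dvd_right hN (Nat.Coprime.pow_right N h1)
    · simp only [hh]
      rw [mul_comm (v / x.gcd v) v]
      refine (Nat.coprime_add_mul_left_left _ _ _).2 ?_
      exact Nat.Coprime.mul_left hva.symm
        (Nat.Coprime.coprime_dvd_left (Nat.gcd_dvd_right x u) huvc)
  have hhh : ∀ x ∈ r, ∀ y ∈ r, x ≠ y → Nat.Coprime (h x) (h y) := by
    intro x hx y hy hxy
    refine Nat.Coprime.symm ?_
    by_contra hcon
    obtain ⟨p, hp, hpy, hpx⟩ := Nat.Prime.not_coprime_iff_dvd.1 hcon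
    have h1 : (p : ℤ) ∣ a₁ * x + v * v := by
      have : p ∣ a₁ * x + v * v := by rw [hg x hx]; exact hpx.mul_left _
      exact_mod_cast this
    have h2 : (p : ℤ) ∣ a₁ * y + v * v := by
      have : p ∣ a₁ * y + v * v := by rw [hg y hy]; exact hpy.mul_left _
      exact_mod_cast this
    have h3 : (p : ℤ) ∣ a₁ * (x - y) := by
      have := dvd_sub h1 h2
      have e1 : (a₁ * x + v * v : ℤ) - (a₁ * y + v * v) = a₁ * (x - y) := by ring
      rwa [e1] at this
    have h4 : p ∣ a₁ * (x - y : ℤ).natAbs := by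
      have := Int.natAbs_dvd_natAbs.2 h3
      rwa [Int.natAbs_mul, Int.natAbs_natCast, Int.natAbs_natCast] at this
    have h5 : (x - y : ℤ).natAbs ∣ D := by
      have e1 : (∏ y ∈ r.toFinset, (if x = y then 1 else (x - y : ℤ).natAbs)) ∣ D :=
        Finset.dvd_prod_of_mem (fun x => ∏ y ∈ r.toFinset, (if x = y then 1 else (x - y : ℤ).natAbs))
          (by simpa using hx)
      have e2 : (if x = y then 1 else (x - y : ℤ).natAbs) ∣
          (∏ y ∈ r.toFinset, (if x = y then 1 else (x - y : ℤ).natAbs)) :=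
        Finset.dvd_prod_of_mem (fun y => (if x = y then 1 else (x - y : ℤ).natAbs))
          (by simpa using hy)
      rw [if_neg hxy] at e2
      exact e2.trans e1
    have h6 : p ∣ P := by
      refine h4.trans ?_
      rw [hP, mul_assoc a₁ a₂ e, mul_assoc a₁, mul_assoc a₁]
      exact mul_dvd_mul_left _ (h5.mul_left _)
    exact Nat.Prime.one_lt hp |>.ne' (Nat.eq_one_of_dvd_coprimes (hhP x hx) hpx h6)
  -- the Chinese remainder theorem
  set W : ℕ := a₁ * a₂ * (e * a₁) * P with hW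
  have hW0 : 0 < W := by positivity
  have hWP : ∀ x ∈ r, Nat.Coprime (h x) W := by
    intro x hx
    have h0 := hhP x hx
    have h1 : Nat.Coprime (h x) a₁ := Nat.Coprime.coprime_dvd_right
      (by rw [hP, mul_assoc a₁ a₂ e, mul_assoc a₁, mul_assoc a₁]; exact dvd_mul_right _ _) h0
    have h2 : Nat.Coprime (h x) a₂ := Nat.Coprime.coprime_dvd_right
      (by rw [hP, mul_comm a₁ a₂, mul_assoc a₂ a₁ e, mul_assoc a₂, mul_assoc a₂]; exact dvd_mul_right _ _) h0
    have h3 : Nat.Coprime (h x) e := Nat.Coprime.coprime_dvd_right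
      (by rw [hP, mul_assoc, mul_comm (a₁ * a₂) e, mul_assoc]; exact dvd_mul_right _ _) h0
    exact ((h1.mul_right h2).mul_right (h3.mul_right h1)).mul_right h0
  obtain ⟨L₀, hL₀⟩ := Ideal.exists_forall_sub_mem_ideal
      (I := fun i : Option {x // x ∈ r} => Ideal.span {(i.elim (W : ℤ) fun x => (h x : ℤ))})
      (by
        intro i j hij
        change IsCoprime (Ideal.span _) (Ideal.span _)
        rw [Ideal.isCoprime_span_singleton_iff]
        rcases i with _ | ⟨x, hx⟩ <;> rcases j with _ | ⟨y, hy⟩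
        · exact absurd rfl hij
        · exact (Nat.isCoprime_iff_coprime.2 (hWP y hy)).symm
        · exact Nat.isCoprime_iff_coprime.2 (hWP x hx)
        · have hxy : x ≠ y := fun h => hij (by subst h; rfl)
          exact Nat.isCoprime_iff_coprime.2 (hhh x hx y hy hxy))
      (fun i : Option {x // x ∈ r} => i.elim 0 fun x => b * (v * v) + d * (a₁ * (x : ℕ)))
  have hLW : (W : ℤ) ∣ L₀ := by
    have h1 := hL₀ none
    rw [Ideal.mem_span_singleton] at h1
    simpa using h1
  have hLx : ∀ x ∈ r, (h x : ℤ) ∣ L₀ - (b * (v * v) + d * (a₁ * x)) := by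
    intro x hx
    have h1 := hL₀ (some ⟨x, hx⟩)
    rw [Ideal.mem_span_singleton] at h1
    simpa using h1
  -- a large solution
  set H : ℕ := ∏ x ∈ r.toFinset, h x with hH
  have hH0 : 0 < H := by
    refine Finset.prod_pos fun x hx => ?_
    have hx' : x ∈ r := by simpa using hx
    have h1 := hg x hx'
    have h2 : 0 < a₁ * x + v * v := by positivity
    rw [h1] at h2
    exact Nat.pos_of_mul_pos_left h2
  have hhH : ∀ x ∈ r, h x ∣ H := fun x hx => Finset.dvd_prod_of_mem h (by simpa using hx)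
  set B : ℤ := |b| * (v * v) + |d| * (a₁ * (r.sum : ℕ)) + e * (v * v) + 1 with hB
  have hB0 : 0 < B := by positivity
  obtain ⟨L, hL⟩ : ∃ L : ℕ, (L : ℤ) = L₀ + W * H * (|L₀| + B) := by
    refine ⟨(L₀ + W * H * (|L₀| + B)).toNat, Int.toNat_of_nonneg ?_⟩
    have h1 : (1 : ℤ) ≤ W * H := by exact_mod_cast Nat.mul_pos hW0 hH0
    have h2 : -|L₀| ≤ L₀ := neg_abs_le L₀
    nlinarith [abs_nonneg L₀]
  have hLB : B ≤ L := by
    rw [hL]
    have h1 : (1 : ℤ) ≤ W * H := by exact_mod_cast Nat.mul_pos hW0 hH0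
    have h2 : -|L₀| ≤ L₀ := neg_abs_le L₀
    nlinarith [abs_nonneg L₀]
  have hLW' : (W : ℤ) ∣ L := by
    rw [hL]
    exact dvd_add hLW ((dvd_mul_right _ _).mul_right _)
  have hLx' : ∀ x ∈ r, (h x : ℤ) ∣ L - (b * (v * v) + d * (a₁ * x)) := by
    intro x hx
    have h1 := hLx x hx
    have h2 : (h x : ℤ) ∣ W * H * (|L₀| + B) := by
      have : (h x : ℤ) ∣ H := by exact_mod_cast hhH x hx
      exact (this.mul_left _).mul_right _
    have := dvd_add h1 h2
    rw [hL]
    have e1 : L₀ + W * H * (|L₀| + B) - (b * (v * v) + d * (a₁ * x)) =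
      L₀ - (b * (v * v) + d * (a₁ * x)) + W * H * (|L₀| + B) := by ring
    rwa [e1]
  have ha2v : a₂ ∣ v := by
    have h1 : a₂ ∣ u * v := by
      rw [← huv, hP]
      exact ((((dvd_mul_left a₂ a₁)).mul_right _).mul_right _).mul_right _
    refine Nat.Coprime.dvd_of_dvd_mul_left ?_ h1
    exact Nat.Coprime.coprime_dvd_right hN (Nat.Coprime.pow_right N hco.symm)
  have hxsum : ∀ x ∈ r, x ≤ r.sum := fun x hx => List.le_sum_of_mem hx
  have hlow : ∀ x ∈ r, b * (v * v) + d * (a₁ * x) < L := by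
    intro x hx
    have h1 : b * (v * v) ≤ |b| * (v * v) := mul_le_mul_of_nonneg_right (le_abs_self b) (by positivity)
    have h2 : d * (a₁ * x) ≤ |d| * (a₁ * x) := mul_le_mul_of_nonneg_right (le_abs_self d) (by positivity)
    have h3 : |d| * (a₁ * (x : ℤ)) ≤ |d| * (a₁ * (r.sum : ℕ)) := by
      have : (x : ℤ) ≤ (r.sum : ℕ) := by exact_mod_cast hxsum x hx
      gcongr
    have h4 : (0 : ℤ) ≤ e * (v * v) := by positivity
    omega
  have hρ : (0 : ℤ) < L - e * (v * v) := by
    have h1 : (0 : ℤ) ≤ |b| * (v * v) := by positivity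
    have h2 : (0 : ℤ) ≤ |d| * (a₁ * (r.sum : ℕ)) := by positivity
    omega
  obtain ⟨ρ, hρe⟩ : ∃ ρ : ℕ, (ρ : ℤ) = L - e * (v * v) := ⟨(L - e * (v * v) : ℤ).toNat,
    Int.toNat_of_nonneg hρ.le⟩
  refine ⟨e * a₁, L, ρ, by positivity, by omega, ?_⟩
  rw [List.pairwise_append]
  refine ⟨?_, List.pairwise_singleton _ _, ?_⟩
  · rw [List.pairwise_map]
    refine hr.imp_of_mem ?_
    rintro x y hx hy ⟨g, n, hg0, hn0, hnd, hxe, hye⟩
    -- `a M g` divides `L`
    have hxy : (x : ℤ) - y = e * g := by rw [hxe, hye, he]; ring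
    have hne : x ≠ y := by
      intro h0
      rw [h0, sub_self] at hxy
      have : (0 : ℤ) < e * g := by positivity
      omega
    have h5 : (x - y : ℤ).natAbs ∣ D := by
      have e1 : (∏ y ∈ r.toFinset, (if x = y then 1 else (x - y : ℤ).natAbs)) ∣ D :=
        Finset.dvd_prod_of_mem (fun x => ∏ y ∈ r.toFinset, (if x = y then 1 else (x - y : ℤ).natAbs))
          (by simpa using hx)
      have e2 : (if x = y then 1 else (x - y : ℤ).natAbs) ∣
          (∏ y ∈ r.toFinset, (if x = y then 1 else (x - y : ℤ).natAbs)) :=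
        Finset.dvd_prod_of_mem (fun y => (if x = y then 1 else (x - y : ℤ).natAbs))
          (by simpa using hy)
      rw [if_neg hne] at e2
      exact e2.trans e1
    have h6 : g ∣ P := by
      have h7 : g ∣ (x - y : ℤ).natAbs := by
        rw [hxy, Int.natAbs_mul, Int.natAbs_natCast, Int.natAbs_natCast]
        exact dvd_mul_left _ _
      exact (h7.trans h5).mul_left _
    have h7 : ((a₁ * a₂ * (e * a₁) * g : ℕ) : ℤ) ∣ L := by
      refine dvd_trans ?_ hLW'
      exact_mod_cast Nat.mul_dvd_mul_left _ h6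
    obtain ⟨t, ht⟩ := h7
    have ht0 : 0 ≤ t := by
      by_contra hcon
      push Not at hcon
      have h8 : (0 : ℤ) < ((a₁ * a₂ * (e * a₁) * g : ℕ) : ℤ) := by positivity
      have h9 : (0 : ℤ) ≤ L := by positivity
      have h10 := mul_neg_of_pos_of_neg h8 hcon
      rw [← ht] at h10
      exact absurd h9 (not_le.2 h10)
    refine ⟨e * a₁ * g, n + t, by positivity, by omega, ?_, ?_, ?_⟩
    · have : (0 : ℤ) ≤ ((a₁ * a₂ : ℕ) : ℤ) * t := by positivity
      nlinarith
    · push_cast at ht ⊢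
      rw [ht, hxe]
      push_cast
      ring
    · push_cast at ht ⊢
      rw [ht, hye]
      push_cast
      ring
  · intro x' hx' y' hy'
    rw [List.mem_singleton] at hy'
    rw [hy']
    obtain ⟨x, hx, rfl⟩ := List.mem_map.1 hx'
    have hx0 := hpos x hx
    set w := x.gcd v with hw
    have hw1 : ((a₁ * (a₂ * w) : ℕ) : ℤ) ∣ L - (b * (v * v) + d * (a₁ * x)) := by
      refine dvd_sub (dvd_trans ?_ hLW') (dvd_add ?_ ?_)
      · have h1 : w ∣ P := (Nat.gcd_dvd_left x v).trans (hxP x hx)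
        have h2 : a₁ * (a₂ * w) ∣ W := by
          rw [hW, mul_assoc (a₁ * a₂), ← mul_assoc a₁ a₂ w]
          exact Nat.mul_dvd_mul_left _ (h1.mul_left _)
        exact_mod_cast h2
      · push_cast
        have h1 : ((a₂ : ℤ) * w) ∣ v * v := by
          exact_mod_cast Nat.mul_dvd_mul ha2v (Nat.gcd_dvd_right x v)
        exact mul_dvd_mul hb h1
      · push_cast
        have h1 : (w : ℤ) ∣ x := by exact_mod_cast Nat.gcd_dvd_left x v
        have h2 : (a₁ : ℤ) * (a₂ * w) ∣ a₁ * (d * x) := mul_dvd_mul_left _ (mul_dvd_mul hd h1)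
        have e1 : d * ((a₁ : ℤ) * x) = a₁ * (d * x) := by ring
        rwa [e1]
    have hcop : IsCoprime ((a₁ * (a₂ * w) : ℕ) : ℤ) (h x : ℤ) := by
      rw [Nat.isCoprime_iff_coprime]
      refine Nat.Coprime.coprime_dvd_left ?_ (hWP x hx).symm
      have h1 : w ∣ P := (Nat.gcd_dvd_left x v).trans (hxP x hx)
      rw [hW, mul_assoc (a₁ * a₂), ← mul_assoc a₁ a₂ w]
      exact Nat.mul_dvd_mul_left _ (h1.mul_left _)
    have hprod := hcop.mul_dvd hw1 (hLx' x hx)
    obtain ⟨m, hm⟩ := hprod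
    have hgx : ((a₁ * x + v * v : ℕ) : ℤ) = w * h x := by exact_mod_cast hg x hx
    have hmod : (L : ℤ) - (b * (v * v) + d * (a₁ * x)) = (a₁ * a₂ : ℕ) * (a₁ * x + v * v : ℕ) * m := by
      rw [hm, hgx]
      push_cast
      ring
    have hgpos : (0 : ℤ) < (a₁ * x + v * v : ℕ) := by positivity
    have hm0 : 0 < m := by
      have h1 := hlow x hx
      by_contra hcon
      push Not at hcon
      have h2 : (0 : ℤ) < (a₁ * a₂ : ℕ) * (a₁ * x + v * v : ℕ) := by positivity
      have h3 := mul_nonpos_of_nonneg_of_nonpos h2.le hcon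
      rw [← hmod] at h3
      omega
    have hρ' : (ρ : ℤ) = (a₁ * x + v * v : ℕ) * ((a₁ * a₂ : ℕ) * m + d) := by
      have e1 : (L : ℤ) = (b * (v * v) + d * (a₁ * x)) + (a₁ * a₂ : ℕ) * (a₁ * x + v * v : ℕ) * m := by
        linarith
      rw [hρe, e1, he]
      push_cast
      ring
    refine ⟨a₁ * x + v * v, m, by positivity, hm0, ?_, ?_, hρ'⟩
    · have h1 : (0 : ℤ) < (a₁ * x + v * v : ℕ) * ((a₁ * a₂ : ℕ) * m + d) := by rw [← hρ']; omega
      exact (pos_iff_pos_of_mul_pos h1).1 hgpos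
    · have e1 : (L : ℤ) = (b * (v * v) + d * (a₁ * x)) + (a₁ * a₂ : ℕ) * (a₁ * x + v * v : ℕ) * m := by
        linarith
      push_cast at e1 ⊢
      rw [e1, he]
      ring

/-- Arbitrarily large sets. -/
theorem exists_clique (a₁ a₂ : ℕ) (ha1 : 0 < a₁) (ha2 : 0 < a₂) (hco : Nat.Coprime a₁ a₂) (b d : ℤ)
    (hb : (a₁ : ℤ) ∣ b) (hd : (a₂ : ℤ) ∣ d) (hbd : d < b) (k : ℕ) :
    ∃ r : List ℕ, r.length = k ∧ (∀ x ∈ r, 0 < x) ∧ r.Pairwise (Rel (a₁ * a₂) b d) := by
  induction k with
  | zero => exact ⟨[], rfl, by simp, List.Pairwise.nil⟩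
  | succ k ih =>
    obtain ⟨r, hlen, hpos, hr⟩ := ih
    obtain ⟨M, L, ρ, hM, hρ, hnew⟩ := step a₁ a₂ ha1 ha2 hco b d hb hd hbd r hpos hr
    refine ⟨_, ?_, ?_, hnew⟩
    · simp [hlen]
    · intro x hx
      rw [List.mem_append] at hx
      rcases hx with hx | hx
      · obtain ⟨y, hy, rfl⟩ := List.mem_map.1 hx
        have := hpos y hy
        positivity
      · rw [List.mem_singleton] at hx
        rw [hx]; exact hρ

end Pool.Agent.T6.H10.Clique
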